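import Pool.Agent.W741.PM.Micro

/-! Part PM-MACRO of project PM (problem MP_ec5bc9_gt). -/

set_option autoImplicit false

namespace Pool.Agent.W741.PM

open Set Filter Topology Pool.Agent.W553.PM

variable {M : Set P} {d : P → P → ℝ} {n : P → P → P}

theorem foot_pt (hn : Perp M d n) {τ : ℝ} (hτ : ((0, τ) : P) ∈ M) (s : ℝ) :
    ((s, τ - (n (0, τ) (0, 1)).2 * s) : P) = (0, τ) + (-s) • n (0, τ) (0, 1) := by
  have h1 := hn.n1 (0, τ) hτ (0, 1) (by simp)
  simp only [dt] at h1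
  refine Prod.ext ?_ ?_
  · simp only [Prod.fst_add, Prod.smul_fst, smul_eq_mul]
    linear_combination (-s) * h1
  · simp only [Prod.snd_add, Prod.smul_snd, smul_eq_mul]
    ring

theorem hL_foot (H : PMet M d) (hn : Perp M d n) (h0 : (0 : P) ∈ M) {τ s : ℝ}
    (hτ : ((0, τ) : P) ∈ M) (hX : ((s, τ - (n (0, τ) (0, 1)).2 * s) : P) ∈ M) :
    hL M d 0 (0, 1) (s, τ - (n (0, τ) (0, 1)).2 * s) =
      d (s, τ - (n (0, τ) (0, 1)).2 * s) (0, τ) := by
  apply le_antisymm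
  · exact hL_le H hX hτ ⟨τ, by refine Prod.ext ?_ ?_ <;> simp⟩
  · refine le_hL h0 fun t ht => ?_
    by_cases htτ : t = τ
    · subst htτ
      have : (0 : P) + t • ((0, 1) : P) = (0, t) := by refine Prod.ext ?_ ?_ <;> simp
      rw [this]
    · have e : (0 : P) + t • ((0, 1) : P) = (0, τ) + (t - τ) • ((0, 1) : P) := by
        refine Prod.ext ?_ ?_ <;> simp
      rw [e] at ht ⊢
      have := hn.n2 (0, τ) hτ (0, 1) (by simp) (-s) (t - τ) (sub_ne_zero.2 htτ)
        (by rw [← foot_pt hn hτ]; exact hX) ht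
      rw [← foot_pt hn hτ] at this
      exact this.le

theorem T_macro (hsph : S_sph) : S_macro := by
  intro M d n H hn hell h0 horth c hder
  -- segment near 0
  obtain ⟨sb, hsb, hseg⟩ : ∃ sb > 0, ∀ s : ℝ, |s| ≤ sb → ((s, 0) : P) ∈ M := by
    obtain ⟨r, hr, hball⟩ := Metric.isOpen_iff.1 H.opn 0 h0
    refine ⟨r / 2, by linarith, fun s hs => hball ?_⟩
    rw [Metric.mem_ball, Prod.dist_eq, max_lt_iff]
    constructor
    · simp only [Prod.fst_zero, Real.dist_eq, sub_zero]; linarith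
    · simpa using hr
  refine ⟨min 1 (min (1 / (2 * (|c| + 1))) (sb / 4)), by positivity, fun x hx0 hx => ?_⟩
  have hxp : 0 < |x| := abs_pos.2 hx0
  have hx1 : |x| < 1 := lt_of_lt_of_le hx (min_le_left _ _)
  have hx2 : |x| < 1 / (2 * (|c| + 1)) :=
    lt_of_lt_of_le hx ((min_le_right _ _).trans (min_le_left _ _))
  have hx3 : |x| < sb / 4 := lt_of_lt_of_le hx ((min_le_right _ _).trans (min_le_right _ _))
  have hxx : x ^ 2 ≤ |x| := by
    rw [← sq_abs]; nlinarith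
  have hxsq : 0 < x ^ 2 := by positivity
  have hcx : c * x ^ 2 ≤ 1 / 2 := by
    rw [lt_div_iff₀ (by positivity)] at hx2
    have h1 : c * x ^ 2 ≤ |c| * |x| := by
      calc c * x ^ 2 ≤ |c| * x ^ 2 := mul_le_mul_of_nonneg_right (le_abs_self c) hxsq.le
        _ ≤ |c| * |x| := mul_le_mul_of_nonneg_left hxx (abs_nonneg c)
    nlinarith [abs_nonneg c]
  have hw : 0 < 1 - c * x ^ 2 := by linarith
  set σ := x ^ 2 / (1 - c * x ^ 2) with hσ
  have hσp : 0 < σ := div_pos hxsq hw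
  have hσle : 2 * σ ≤ sb := by
    have : σ ≤ 2 * x ^ 2 := by
      rw [hσ, div_le_iff₀ hw]
      nlinarith
    linarith
  have hinv : 1 / σ = 1 / x ^ 2 - c := by
    rw [hσ]; field_simp
  -- the points
  set X' : ℝ → ℝ → P := fun p s =>
    (s, x * √(2 * p) - (n (0, x * √(2 * p)) (0, 1)).2 * s) with hX'
  have hsel : ∀ ε > 0, ∀ᶠ p in 𝓝[>] (0 : ℝ), ∃ s, |s - σ| ≤ ε ∧
      (X' p s ∈ M ∧ d (X' p s) (p, 0) = hL M d 0 (0, 1) (X' p s)) := by
    intro ε hε
    obtain ⟨e, he0, he1, he2⟩ : ∃ e : ℝ, 0 < e ∧ e * σ ≤ ε ∧ e ≤ 1 / 2 := by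
      refine ⟨min (ε / σ) (1 / 2), by positivity, ?_, min_le_right _ _⟩
      calc _ ≤ ε / σ * σ := mul_le_mul_of_nonneg_right (min_le_left _ _) hσp.le
        _ = ε := by field_simp
    set s1 := (1 - e) * σ with hs1
    set s2 := (1 + e) * σ with hs2
    have hs1p : 0 < s1 := mul_pos (by linarith) hσp
    have hs12 : s1 ≤ s2 := mul_le_mul_of_nonneg_right (by linarith) hσp.le
    have hs2b : s2 ≤ sb := by
      have : s2 ≤ 2 * σ := mul_le_mul_of_nonneg_right (by linarith) hσp.le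
      linarith
    have hs2p : 0 < s2 := by linarith
    set κ := x ^ 2 / σ * (e / (1 + e)) with hκ
    have hκp : 0 < κ := by positivity
    obtain ⟨p0, hp0, hmain⟩ := hsph M d n H hn hell h0 horth c hder s1 s2 hs1p hs12
      (fun s hs => hseg s (by rw [abs_of_nonneg hs.1]; exact hs.2.trans hs2b))
      (2 * x ^ 2) (by positivity) κ hκp
    have hsmall : ∀ᶠ p in 𝓝[>] (0 : ℝ), p < p0 := nhdsWithin_le_nhds (Iio_mem_nhds hp0)
    filter_upwards [hsmall, self_mem_nhdsWithin] with p hpp hp4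
    have hp : 0 < p := hp4
    have hτ2 : (x * √(2 * p)) ^ 2 = 2 * x ^ 2 * p := by
      rw [mul_pow, Real.sq_sqrt (by linarith)]; ring
    have hall : ∀ s ∈ Icc s1 s2, _ := fun s hs => hmain p hp hpp s hs (x * √(2 * p)) hτ2.le
    have hpM : ((p, 0) : P) ∈ M := (hall s1 ⟨le_rfl, hs12⟩).2.1
    have hτM : ((0, x * √(2 * p)) : P) ∈ M := (hall s1 ⟨le_rfl, hs12⟩).2.2.1
    have hXM : ∀ s ∈ Icc s1 s2, X' p s ∈ M := fun s hs => (hall s hs).1
    have hhL : ∀ s ∈ Icc s1 s2, hL M d 0 (0, 1) (X' p s) = d (X' p s) (0, x * √(2 * p)) :=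
      fun s hs => hL_foot H hn h0 hτM (hXM s hs)
    -- s = s1
    have h1 : hL M d 0 (0, 1) (X' p s1) < d (X' p s1) (p, 0) := by
      rw [hhL s1 ⟨le_rfl, hs12⟩]
      refine (hall s1 ⟨le_rfl, hs12⟩).2.2.2.2 ?_
      rw [hτ2]
      have h2 : 1 / s1 + c = 1 / x ^ 2 + 1 / σ * (e / (1 - e)) := by
        have h3 : 1 / s1 = 1 / σ + 1 / σ * (e / (1 - e)) := by
          have : (1 - e) ≠ 0 := by linarith
          rw [hs1]; field_simp; ring
        rw [h3, hinv]; ring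
      rw [h2]
      have h4 : κ ≤ x ^ 2 / σ * (e / (1 - e)) := by
        rw [hκ]
        apply mul_le_mul_of_nonneg_left _ (by positivity)
        apply div_le_div_of_nonneg_left he0.le (by linarith) (by linarith)
      have h5 : 2 * x ^ 2 * p / 2 * (1 / x ^ 2 + 1 / σ * (e / (1 - e))) =
          p + p * (x ^ 2 / σ * (e / (1 - e))) := by
        field_simp
      rw [h5]
      have := mul_le_mul_of_nonneg_left h4 hp.le
      linarith
    have h2 : d (X' p s2) (p, 0) < hL M d 0 (0, 1) (X' p s2) := by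
      rw [hhL s2 ⟨hs12, le_rfl⟩]
      refine (hall s2 ⟨hs12, le_rfl⟩).2.2.2.1 ?_
      rw [hτ2]
      have h2 : 1 / s2 + c = 1 / x ^ 2 - 1 / σ * (e / (1 + e)) := by
        have h3 : 1 / s2 = 1 / σ - 1 / σ * (e / (1 + e)) := by
          have : (1 + e) ≠ 0 := by linarith
          rw [hs2]; field_simp; ring
        rw [h3, hinv]; ring
      rw [h2]
      have h5 : 2 * x ^ 2 * p / 2 * (1 / x ^ 2 - 1 / σ * (e / (1 + e))) = p - κ * p := by
        rw [hκ]
        field_simp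
      rw [h5]
      linarith
    have hcontX : Continuous (fun s : ℝ => X' p s) := by
      simp only [hX']; fun_prop
    have hcf : ContinuousOn (fun s : ℝ => d (X' p s) (p, 0) - hL M d 0 (0, 1) (X' p s))
        (Icc s1 s2) :=
      ((H.cont_left hpM).comp hcontX.continuousOn hXM).sub
        ((hL_cont H h0).comp hcontX.continuousOn hXM)
    obtain ⟨s, hsI, hs0⟩ := (intermediate_value_Icc' hs12 hcf) (show (0 : ℝ) ∈ Icc _ _ from
      ⟨by simpa using h2.le, by simpa using h1.le⟩)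
    refine ⟨s, ?_, hXM s hsI, sub_eq_zero.1 hs0⟩
    rw [abs_le]
    constructor
    · have := hsI.1
      linarith
    · have := hsI.2
      linarith
  obtain ⟨s, hs1, hs2⟩ := select hsel
  refine ⟨fun p => X' p (s p), hs1, ?_⟩
  have hτ0 : Tendsto (fun p : ℝ => x * √(2 * p)) (𝓝[>] 0) (𝓝[≠] 0) := by
    refine tendsto_nhdsWithin_iff.2 ⟨?_, ?_⟩
    · have : Continuous (fun p : ℝ => x * √(2 * p)) := by fun_prop
      have h := this.tendsto 0
      simp only [mul_zero, Real.sqrt_zero] at h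
      exact h.mono_left nhdsWithin_le_nhds
    · filter_upwards [self_mem_nhdsWithin] with p hp
      have hp' : 0 < p := hp
      exact mul_ne_zero hx0 (Real.sqrt_pos.2 (by linarith)).ne'
  have hn0 : (n (0, 0) (0, 1)).2 = 0 := by
    have h1 := horth (0, 1) (by simp)
    have h2 : (n 0 (0, 1)).2 = 0 := by simpa [ip] using h1
    exact h2
  have hslope := hder.tendsto_slope_zero.comp hτ0
  have hlim : Tendsto (fun p : ℝ => x + x * ((x * √(2 * p))⁻¹ *
      (-(n (0, x * √(2 * p)) (0, 1)).2)) * s p) (𝓝[>] 0) (𝓝 (x + x * c * σ)) := by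
    refine tendsto_const_nhds.add ((tendsto_const_nhds.mul ?_).mul hs2)
    refine hslope.congr fun p => ?_
    simp only [Function.comp, zero_add, smul_eq_mul, hn0, neg_zero, sub_zero]
  have hval : x + x * c * σ = x / (1 - c * x ^ 2) := by
    have h1 : σ * (1 - c * x ^ 2) = x ^ 2 := by rw [hσ]; exact div_mul_cancel₀ _ hw.ne'
    rw [eq_div_iff hw.ne']
    linear_combination (x * c) * h1
  rw [hval] at hlim
  have h2nd : Tendsto (fun p : ℝ => (X' p (s p)).2 / √(2 * p)) (𝓝[>] 0)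
      (𝓝 (x / (1 - c * x ^ 2))) := by
    refine hlim.congr' ?_
    filter_upwards [self_mem_nhdsWithin] with p hp
    have hp' : 0 < p := hp
    have hsq : √(2 * p) ≠ 0 := (Real.sqrt_pos.2 (by linarith)).ne'
    simp only [hX']
    field_simp
    ring
  exact hs2.prodMk_nhds h2nd

theorem poly4 {a0 a1 a2 a3 a4 x0 : ℝ} (hx0 : 0 < x0)
    (h : ∀ x : ℝ, x ≠ 0 → |x| < x0 → a0 + a1 * x + a2 * x ^ 2 + a3 * x ^ 3 + a4 * x ^ 4 = 0) :
    a0 = 0 ∧ a1 = 0 ∧ a2 = 0 ∧ a3 = 0 ∧ a4 = 0 := by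
  set p : Polynomial ℝ := Polynomial.C a0 + Polynomial.C a1 * Polynomial.X +
    Polynomial.C a2 * Polynomial.X ^ 2 + Polynomial.C a3 * Polynomial.X ^ 3 +
    Polynomial.C a4 * Polynomial.X ^ 4 with hp
  have hinf : Set.Infinite {x | p.IsRoot x} := by
    refine (Set.Ioo_infinite hx0).mono fun x hx => ?_
    have h1 := h x hx.1.ne' (by rw [abs_of_pos hx.1]; exact hx.2)
    simp only [mem_setOf_eq, Polynomial.IsRoot, hp, Polynomial.eval_add, Polynomial.eval_mul,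
      Polynomial.eval_C, Polynomial.eval_X, Polynomial.eval_pow]
    exact h1
  have hz := Polynomial.eq_zero_of_infinite_isRoot p hinf
  have hc : ∀ k, p.coeff k = 0 := fun k => by rw [hz, Polynomial.coeff_zero]
  have h0 := hc 0
  have h1 := hc 1
  have h2 := hc 2
  have h3 := hc 3
  have h4 := hc 4
  simp only [hp, Polynomial.coeff_add, Polynomial.coeff_C_mul, Polynomial.coeff_X_pow,
    Polynomial.coeff_C, Polynomial.coeff_X] at h0 h1 h2 h3 h4
  norm_num at h0 h1 h2 h3 h4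
  exact ⟨h0, h1, h2, h3, h4⟩

theorem alg6 {q0 q1 q2 q3 q4 q5 x w y : ℝ} (hx : x = y * w)
    (h : q0 * (y ^ 2 * w) ^ 2 + q1 * (y ^ 2 * w) * y + q2 * y ^ 2 + q3 * (y ^ 2 * w) + q4 * y +
      q5 = 0) :
    q0 * x ^ 4 + q1 * x ^ 3 + q2 * x ^ 2 + (q3 * x ^ 2 + q4 * x) * w + q5 * w ^ 2 = 0 := by
  subst hx
  linear_combination w ^ 2 * h

theorem T_c0 (hmac : S_macro) (himpl : S_impl) (hclim : S_clim) : S_c0 := by
  intro M d n H hn hell h0 horth c hder
  obtain ⟨x0, hx0, hX⟩ := hmac M d n H hn hell h0 horth c hder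
  choose! X hX1 hX2 using hX
  obtain ⟨p1, hp1, hseg⟩ : ∃ p1 > 0, ∀ s : ℝ, |s| ≤ p1 → ((s, 0) : P) ∈ M := by
    obtain ⟨r, hr, hball⟩ := Metric.isOpen_iff.1 H.opn 0 h0
    refine ⟨r / 2, by linarith, fun s hs => hball ?_⟩
    rw [Metric.mem_ball, Prod.dist_eq, max_lt_iff]
    constructor
    · simp only [Prod.fst_zero, Real.dist_eq, sub_zero]; linarith
    · simpa using hr
  set pk : ℕ → ℝ := fun k => p1 / (k + 1) with hpk
  have hpkp : ∀ k, 0 < pk k := fun k => by simp only [hpk]; positivity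
  have hpkl : ∀ k, pk k ≤ p1 := fun k => by
    simp only [hpk]
    apply div_le_self hp1.le
    have : (0 : ℝ) ≤ k := Nat.cast_nonneg k
    linarith
  have hpk0 : Tendsto pk atTop (𝓝[>] 0) := by
    refine tendsto_nhdsWithin_iff.2 ⟨?_, Eventually.of_forall hpkp⟩
    have h1 := tendsto_one_div_add_atTop_nhds_zero_nat (𝕜 := ℝ)
    have h2 := h1.const_mul p1
    rw [mul_zero] at h2
    refine h2.congr fun k => ?_
    simp only [hpk]
    ring
  have hex : ∀ k : ℕ, ∃ q : Fin 6 → ℝ, q ≠ 0 ∧ disc q = 0 ∧ ∀ Z : P, Z ∈ M →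
      d Z (pk k, 0) = hL M d 0 (0, 1) Z → ev q (Z.1, Z.2 / √(2 * pk k)) = 0 := by
    intro k
    have hFM : ((pk k, 0) : P) ∈ M := hseg _ (by rw [abs_of_pos (hpkp k)]; exact hpkl k)
    have hFn : ((pk k, 0) : P) ∉ Ln 0 (0, 1) := by
      rintro ⟨t, ht⟩
      have := congrArg Prod.fst ht
      simp at this
      exact (hpkp k).ne' this
    obtain ⟨a, b, c', hbc, hset⟩ := H.conic 0 h0 (0, 1) (by simp) (pk k, 0) hFM hFn
    have hsq : 0 < √(2 * pk k) := Real.sqrt_pos.2 (by linarith [hpkp k])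
    obtain ⟨q, hq1, hq2, hq3⟩ := himpl a b c' hbc 0 (1, 0) (0, √(2 * pk k)) (by
      simp only [dt]; simp only [one_mul, zero_mul, sub_zero]; exact hsq.ne')
    refine ⟨q, hq1, hq2, fun Z hZ hd => ?_⟩
    rw [← hq3]
    have hmem : Z ∈ M ∩ Par a b c' := hset ▸ (show Z ∈ {X | X ∈ M ∧ _} from ⟨hZ, hd⟩)
    have e : (0 : P) + Z.1 • ((1, 0) : P) + (Z.2 / √(2 * pk k)) • ((0, √(2 * pk k)) : P) = Z := by
      refine Prod.ext ?_ ?_
      · simp
      · simp only [Prod.snd_add, Prod.smul_snd, Prod.snd_zero, smul_eq_mul]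
        field_simp
        ring
    show (0 : P) + (Z.1, Z.2 / √(2 * pk k)).1 • ((1, 0) : P) +
      (Z.1, Z.2 / √(2 * pk k)).2 • ((0, √(2 * pk k)) : P) ∈ Par a b c'
    rw [e]
    exact hmem.2
  choose q hq1 hq2 hq3 using hex
  obtain ⟨q', hq'0, hq'd, hq'e⟩ := hclim {x : ℝ // x ≠ 0 ∧ |x| < x0}
    (fun i k => ((X i.1 (pk k)).1, (X i.1 (pk k)).2 / √(2 * pk k)))
    (fun i => (i.1 ^ 2 / (1 - c * i.1 ^ 2), i.1 / (1 - c * i.1 ^ 2))) q
    (fun k => ⟨hq1 k, hq2 k⟩)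
    (fun i => (hX2 i.1 i.2.1 i.2.2).comp hpk0)
    (fun i => by
      filter_upwards [hpk0.eventually (hX1 i.1 i.2.1 i.2.2)] with k hk
      exact hq3 k _ hk.1 hk.2)
  -- algebra
  set x1 := min x0 (min 1 (1 / (2 * (|c| + 1)))) with hx1
  have hx1p : 0 < x1 := by positivity
  have hpoly : ∀ x : ℝ, x ≠ 0 → |x| < x1 →
      q' 5 + q' 4 * x + (q' 2 + q' 3 - 2 * c * q' 5) * x ^ 2 + (q' 1 - c * q' 4) * x ^ 3 +
        (q' 0 - c * q' 3 + c ^ 2 * q' 5) * x ^ 4 = 0 := by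
    intro x hx hxlt
    have hxa : |x| < x0 := lt_of_lt_of_le hxlt (min_le_left _ _)
    have hxb : |x| < 1 := lt_of_lt_of_le hxlt ((min_le_right _ _).trans (min_le_left _ _))
    have hxc : |x| < 1 / (2 * (|c| + 1)) :=
      lt_of_lt_of_le hxlt ((min_le_right _ _).trans (min_le_right _ _))
    have hxx : x ^ 2 ≤ |x| := by
      rw [← sq_abs]; nlinarith [abs_nonneg x]
    have hcx : c * x ^ 2 ≤ 1 / 2 := by
      rw [lt_div_iff₀ (by positivity)] at hxc
      have h1 : c * x ^ 2 ≤ |c| * |x| := by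
        calc c * x ^ 2 ≤ |c| * x ^ 2 := mul_le_mul_of_nonneg_right (le_abs_self c) (sq_nonneg x)
          _ ≤ |c| * |x| := mul_le_mul_of_nonneg_left hxx (abs_nonneg c)
      nlinarith [abs_nonneg c, abs_nonneg x]
    have hw : 1 - c * x ^ 2 ≠ 0 := by linarith
    have h1 := hq'e ⟨x, hx, hxa⟩
    simp only [ev] at h1
    have h2 : x ^ 2 / (1 - c * x ^ 2) = (x / (1 - c * x ^ 2)) ^ 2 * (1 - c * x ^ 2) := by
      rw [div_pow]; field_simp
    rw [h2] at h1
    have h3 := alg6 (x := x) (w := 1 - c * x ^ 2) (y := x / (1 - c * x ^ 2))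
      (div_mul_cancel₀ _ hw).symm h1
    linear_combination h3
  obtain ⟨e5, e4, e2, e1, e0⟩ := poly4 hx1p hpoly
  by_contra hc
  apply hq'0
  have h5 : q' 5 = 0 := e5
  have h4 : q' 4 = 0 := e4
  rw [h5] at e2 e0
  rw [h4] at e1
  have h1 : q' 1 = 0 := by linarith
  have h3 : q' 3 = - q' 2 := by linarith
  have h0' : q' 0 = - c * q' 2 := by rw [h3] at e0; linarith
  simp only [disc] at hq'd
  rw [h1, h0'] at hq'd
  have h2 : q' 2 = 0 := by
    have : c * (q' 2) ^ 2 = 0 := by linarith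
    rcases mul_eq_zero.1 this with h | h
    · exact absurd h hc
    · exact pow_eq_zero_iff (by norm_num) |>.1 h
  funext i
  fin_cases i
  · simp [h0', h2]
  · simp [h1]
  · simp [h2]
  · simp [h3, h2]
  · simp [h4]
  · simp [h5]

end Pool.Agent.W741.PM
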