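import Pool.Agent.W553.PM.Stm

/-! Part PM-MICRO of project PM (problem MP_ec5bc9_gt). -/

set_option autoImplicit false

namespace Pool.Agent.W741.PM

open Set Filter Topology Pool.Agent.W553.PM

variable {M : Set P} {d : P → P → ℝ} {n : P → P → P}

theorem ip_add_right (u v w : P) : ip u (v + w) = ip u v + ip u w := by
  simp only [ip, Prod.fst_add, Prod.snd_add]; ring

theorem ip_sub_right (u v w : P) : ip u (v - w) = ip u v - ip u w := by
  simp only [ip, Prod.fst_sub, Prod.snd_sub]; ring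

theorem ip_smul_right (u v : P) (c : ℝ) : ip u (c • v) = c * ip u v := by
  simp only [ip, Prod.smul_fst, Prod.smul_snd, smul_eq_mul]; ring

theorem ip_neg_left (u v : P) : ip (-u) v = - ip u v := by
  simp only [ip, Prod.fst_neg, Prod.snd_neg]; ring

theorem ip_ee_ee (φ : ℝ) : ip (ee φ) (ee φ) = 1 := by
  simp only [ip, ee]; nlinarith [Real.sin_sq_add_cos_sq φ]

theorem ip_ee_ww (φ : ℝ) : ip (ee φ) (ww φ) = 0 := by
  simp only [ip, ee, ww]; ring

theorem ee_pi (φ : ℝ) : ee (φ + Real.pi) = - ee φ := by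
  simp [ee, Real.cos_add_pi, Real.sin_add_pi]

theorem ww_ne (φ : ℝ) : ww φ ≠ 0 := by
  intro h
  have h1 : -Real.sin φ = 0 := congrArg Prod.fst h
  have h2 : Real.cos φ = 0 := congrArg Prod.snd h
  nlinarith [Real.sin_sq_add_cos_sq φ]

theorem decomp (φ : ℝ) (v : P) : v = ip (ee φ) v • ee φ + ip (ww φ) v • ww φ := by
  have h := Real.sin_sq_add_cos_sq φ
  refine Prod.ext ?_ ?_
  · simp only [ip, ee, ww, Prod.fst_add, Prod.smul_fst, smul_eq_mul]
    linear_combination (-v.1) * h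
  · simp only [ip, ee, ww, Prod.snd_add, Prod.smul_snd, smul_eq_mul]
    linear_combination (-v.2) * h

theorem ip_ee_aa (Y : P) (φ : ℝ) : ip (ee φ) (aa n Y φ) = 1 := by
  rw [aa, ip_add_right, ip_smul_right, ip_ee_ee, ip_ee_ww]; ring

theorem aa_eq (hn : Perp M d n) {Y : P} (hY : Y ∈ M) (φ : ℝ) : aa n Y φ = - n Y (ww φ) := by
  have h1 := hn.n1 Y hY (ww φ) (ww_ne φ)
  have h2 : ip (ee φ) (n Y (ww φ)) = -1 := by
    simp only [ip, ee]
    simp only [dt, ww] at h1 ⊢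
    linarith
  have h3 := decomp φ (n Y (ww φ))
  rw [h2] at h3
  have h4 : - n Y (ww φ) = -((-1 : ℝ) • ee φ + ip (ww φ) (n Y (ww φ)) • ww φ) :=
    congrArg _ h3
  rw [aa, TT, h4]
  module

theorem on_line {φ : ℝ} {W F : P} (h : ip (ee φ) W = ip (ee φ) F) : ∃ t : ℝ, W = F + t • ww φ := by
  have h3 := decomp φ (W - F)
  rw [ip_sub_right, h, sub_self, zero_smul, zero_add] at h3
  exact ⟨_, by rw [← h3]; abel⟩

/-- a point on the segment where a linear functional takes an intermediate value -/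
theorem cross {e X Z : P} {v : ℝ} (h1 : ip e X ≤ v) (h2 : v ≤ ip e Z) (h3 : ip e X < ip e Z) :
    ∃ W ∈ segment ℝ X Z, ip e W = v := by
  have hpos : 0 < ip e Z - ip e X := by linarith
  refine ⟨X + ((v - ip e X) / (ip e Z - ip e X)) • (Z - X), ?_, ?_⟩
  · rw [segment_eq_image']
    refine ⟨_, ⟨?_, ?_⟩, rfl⟩
    · exact div_nonneg (by linarith) hpos.le
    · rw [div_le_one hpos]; linarith
  · rw [ip_add_right, ip_smul_right, ip_sub_right]
    field_simp
    ring

theorem contact_eq (H : PMet M d) (hn : Perp M d n) {F : P} (hF : F ∈ M) {φ lam : ℝ}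
    (hlam : 0 < lam) (hX : F - lam • aa n F φ ∈ M) {Y : ℝ → P}
    (hY : Contact M d n (F - lam • aa n F φ) (d (F - lam • aa n F φ) F) Y) : Y φ = F := by
  set X := F - lam • aa n F φ with hXd
  have hXn : X = F + lam • n F (ww φ) := by
    rw [hXd, aa_eq hn hF, smul_neg, sub_neg_eq_add]
  have hipX : ip (ee φ) X = ip (ee φ) F - lam := by
    rw [hXd, ip_sub_right, ip_smul_right, ip_ee_aa]; ring
  have hstrict : ∀ t : ℝ, t ≠ 0 → F + t • ww φ ∈ M → d X F < d X (F + t • ww φ) := by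
    intro t ht hm
    have := hn.n2 F hF (ww φ) (ww_ne φ) lam t ht (by rw [← hXn]; exact hX) hm
    rwa [← hXn] at this
  have hle : ip (ee φ) (Y φ) ≤ ip (ee φ) F := by
    by_contra hlt
    push Not at hlt
    obtain ⟨W, hW, hWv⟩ := cross (e := ee φ) (X := X) (Z := Y φ) (v := ip (ee φ) F)
      (by linarith) hlt.le (by linarith)
    have hWM : W ∈ M := H.cvx.segment_subset hX (hY.mem φ) hW
    have hseg := H.seg X hX W hWM (Y φ) (hY.mem φ) hW
    have hne : W ≠ Y φ := by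
      intro h
      rw [h] at hWv
      linarith
    have hpos := H.pos hWM (hY.mem φ) hne
    have hlt2 : d X W < d X F := by
      have := hY.dst φ
      linarith
    obtain ⟨t, ht⟩ := on_line hWv
    by_cases h0 : t = 0
    · rw [h0, zero_smul, add_zero] at ht
      rw [ht] at hlt2
      exact lt_irrefl _ hlt2
    · have := hstrict t h0 (ht ▸ hWM)
      rw [← ht] at this
      linarith
  have hge := hY.max φ F hF le_rfl
  exact (hY.uniq φ F hF le_rfl (le_antisymm hge hle)).symm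

theorem ip_line (O : P) (φ t : ℝ) : ip (ee φ) (O + t • ww φ) = ip (ee φ) O := by
  rw [ip_add_right, ip_smul_right, ip_ee_ww]; ring

theorem low_lt {O X : P} (hO : O ∈ M) {φ₀ r : ℝ} {Y : ℝ → P} (hY : Contact M d n X r Y)
    (h : ip (ee (φ₀ + Real.pi)) (Y (φ₀ + Real.pi) - X) < ip (ee φ₀) (X - O)) :
    r ≤ hL M d O (ww φ₀) X := by
  refine le_hL hO fun t ht => ?_
  by_contra hlt
  push Not at hlt
  have h1 := hY.max (φ₀ + Real.pi) _ ht hlt.le
  rw [ee_pi, ip_neg_left, ip_neg_left, ip_line] at h1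
  rw [ee_pi, ip_neg_left, ip_sub_right, ip_sub_right] at h
  linarith

theorem low_ge (H : PMet M d) {O X : P} (hX : X ∈ M) {φ₀ r : ℝ} {Y : ℝ → P}
    (hY : Contact M d n X r Y)
    (h : ip (ee φ₀) (X - O) ≤ ip (ee (φ₀ + Real.pi)) (Y (φ₀ + Real.pi) - X))
    (h0 : 0 ≤ ip (ee φ₀) (X - O)) :
    hL M d O (ww φ₀) X ≤ r := by
  have hpos := hY.pos (φ₀ + Real.pi)
  rw [ee_pi, ip_neg_left, ip_sub_right] at hpos
  rw [ee_pi, ip_neg_left, ip_sub_right, ip_sub_right] at h
  rw [ip_sub_right] at h0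
  obtain ⟨W, hW, hWv⟩ := cross (e := ee φ₀) (X := Y (φ₀ + Real.pi)) (Z := X)
    (v := ip (ee φ₀) O) (by linarith) (by linarith) (by linarith)
  have hYM := hY.mem (φ₀ + Real.pi)
  rw [segment_symm] at hW
  have hWM : W ∈ M := H.cvx.segment_subset hX hYM hW
  have hseg := H.seg X hX W hWM _ hYM hW
  have hnn := H.nonneg hWM hYM
  have hd := hY.dst (φ₀ + Real.pi)
  obtain ⟨t, ht⟩ := on_line hWv
  have := hL_le H (O := O) (u := ww φ₀) hX hWM ⟨t, ht⟩
  linarith

theorem cont_ww : Continuous ww := by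
  unfold ww
  exact (Real.continuous_sin.neg).prodMk Real.continuous_cos

theorem cont_TT (hc : NCont M n) {O : P} (hO : O ∈ M) : Continuous (fun t => TT n O t) := by
  have h1 : Continuous (fun t : ℝ => n O (ww t)) := by
    have h2 : ContinuousOn (fun p : P × P => n p.1 p.2) (M ×ˢ {u : P | u ≠ 0}) := hc
    exact h2.comp_continuous (continuous_const.prodMk cont_ww) (fun t => ⟨hO, ww_ne t⟩)
  unfold TT ip
  have h3 := cont_ww
  exact ((h3.fst.mul h1.fst).add (h3.snd.mul h1.snd)).neg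

theorem GG_pos (O : P) (φ : ℝ) : 0 < GG n O φ := Real.exp_pos _

theorem GG_ratio (hc : NCont M n) {O : P} (hO : O ∈ M) (φ ψ : ℝ) :
    ∫ t in ψ..φ, TT n O t = Real.log (GG n O φ) - Real.log (GG n O ψ) := by
  rw [GG, GG, Real.log_exp, Real.log_exp]
  have hT := cont_TT hc hO
  rw [intervalIntegral.integral_interval_sub_left (hT.intervalIntegrable _ _)
    (hT.intervalIntegrable _ _)]

/-- selection of near minimisers -/
theorem select {Q : ℝ → ℝ → Prop} {c0 : ℝ}
    (h : ∀ ε > 0, ∀ᶠ p in 𝓝[>] (0 : ℝ), ∃ c, |c - c0| ≤ ε ∧ Q p c) :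
    ∃ c : ℝ → ℝ, (∀ᶠ p in 𝓝[>] (0 : ℝ), Q p (c p)) ∧ Tendsto c (𝓝[>] 0) (𝓝 c0) := by
  classical
  have hex : ∀ p : ℝ, 0 < p → (∃ c, Q p c) →
      ∃ c, Q p c ∧ |c - c0| < sInf ((fun c => |c - c0|) '' {c | Q p c}) + p := by
    intro p hp hne
    obtain ⟨c, hc⟩ := hne
    have hne' : ((fun c => |c - c0|) '' {c | Q p c}).Nonempty := ⟨_, c, hc, rfl⟩
    obtain ⟨_, ⟨c', hc', rfl⟩, hlt⟩ := exists_lt_of_csInf_lt hne'
      (show sInf ((fun c => |c - c0|) '' {c | Q p c}) <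
        sInf ((fun c => |c - c0|) '' {c | Q p c}) + p by linarith)
    exact ⟨c', hc', hlt⟩
  refine ⟨fun p => if hp : 0 < p ∧ ∃ c, Q p c then (hex p hp.1 hp.2).choose else c0, ?_, ?_⟩
  · filter_upwards [h 1 one_pos, self_mem_nhdsWithin] with p hp hp0
    have hp' : 0 < p ∧ ∃ c, Q p c := ⟨hp0, hp.imp fun c hc => hc.2⟩
    simp only [dif_pos hp']
    exact (hex p hp'.1 hp'.2).choose_spec.1
  · rw [Metric.tendsto_nhds]
    intro ε hε
    have hsmall : ∀ᶠ p in 𝓝[>] (0 : ℝ), p < ε / 2 :=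
      nhdsWithin_le_nhds (Iio_mem_nhds (by linarith))
    filter_upwards [h (ε / 2) (by linarith), self_mem_nhdsWithin, hsmall] with p hp hp0 hps
    have hp' : 0 < p ∧ ∃ c, Q p c := ⟨hp0, hp.imp fun c hc => hc.2⟩
    simp only [dif_pos hp']
    have h1 := (hex p hp'.1 hp'.2).choose_spec.2
    obtain ⟨c, hc1, hc2⟩ := hp
    have h2 : sInf ((fun c => |c - c0|) '' {c | Q p c}) ≤ |c - c0| :=
      csInf_le ⟨0, by rintro _ ⟨x, -, rfl⟩; exact abs_nonneg _⟩ ⟨c, hc2, rfl⟩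
    rw [Real.dist_eq]
    linarith

/-- numerical part -/
theorem numer {c0 g η : ℝ} (hc0 : 0 < c0) (hg : 0 < g) (hsum : c0 * (g + η) = 1) {ε' : ℝ}
    (hε' : 0 < ε') (hε2 : ε' < c0 * g / 2) (_hε3 : ε' < 1) :
    ∃ ε > 0, ∃ δ > 0, ∀ κ : ℝ, |κ - η| < δ →
      (1 - ε') * c0 * (g * Real.exp ε + κ) < 1 ∧
      1 < (1 + ε') * c0 * (g * Real.exp (-ε) + κ) ∧ 0 < 1 - (1 + ε') * c0 * κ := by
  have h1 : Tendsto (fun q : ℝ × ℝ => (1 - ε') * c0 * (g * Real.exp q.1 + q.2)) (𝓝 (0, η))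
      (𝓝 ((1 - ε') * c0 * (g * Real.exp 0 + η))) := by
    apply Continuous.tendsto (by fun_prop)
  have h2 : Tendsto (fun q : ℝ × ℝ => (1 + ε') * c0 * (g * Real.exp (-q.1) + q.2)) (𝓝 (0, η))
      (𝓝 ((1 + ε') * c0 * (g * Real.exp (-0) + η))) := by
    apply Continuous.tendsto (by fun_prop)
  have h3 : Tendsto (fun q : ℝ × ℝ => 1 - (1 + ε') * c0 * q.2) (𝓝 (0, η))
      (𝓝 (1 - (1 + ε') * c0 * η)) := by
    apply Continuous.tendsto (by fun_prop)
  have e1 : (1 - ε') * c0 * (g * Real.exp 0 + η) < 1 := by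
    rw [Real.exp_zero, mul_one, mul_assoc, hsum]; linarith
  have e2 : 1 < (1 + ε') * c0 * (g * Real.exp (-0) + η) := by
    rw [neg_zero, Real.exp_zero, mul_one, mul_assoc, hsum]; linarith
  have e3 : 0 < 1 - (1 + ε') * c0 * η := by
    have : c0 * η = 1 - c0 * g := by linarith
    rw [mul_assoc, this]
    have hcg : 0 < c0 * g := mul_pos hc0 hg
    nlinarith
  have hall := ((h1.eventually (Iio_mem_nhds e1)).and ((h2.eventually (Ioi_mem_nhds e2)).and
    (h3.eventually (Ioi_mem_nhds e3))))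
  obtain ⟨r, hr, hball⟩ := Metric.eventually_nhds_iff.1 hall
  refine ⟨r / 2, by linarith, r, hr, fun κ hκ => ?_⟩
  have := @hball (r / 2, κ) (by
    rw [Prod.dist_eq, max_lt_iff]
    constructor
    · simp only [Real.dist_eq, sub_zero]
      rw [abs_of_pos (by linarith)]; linarith
    · simpa [Real.dist_eq] using hκ)
  exact ⟨this.1, this.2.1, this.2.2⟩

theorem log_bound {low lam G0 G1 ε : ℝ} (h1 : 0 < low) (h2 : 0 < lam) (h3 : 0 < G0) (h4 : 0 < G1)
    (h : |Real.log low - Real.log lam - (Real.log G0 - Real.log G1)| ≤ ε) :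
    low ≤ lam * (G0 / G1 * Real.exp ε) ∧ lam * (G0 / G1 * Real.exp (-ε)) ≤ low := by
  rw [abs_le] at h
  have hg : 0 < G0 / G1 := div_pos h3 h4
  have hlg : Real.log (G0 / G1) = Real.log G0 - Real.log G1 := Real.log_div h3.ne' h4.ne'
  have hlow : low = Real.exp (Real.log low) := (Real.exp_log h1).symm
  have hl : lam = Real.exp (Real.log lam) := (Real.exp_log h2).symm
  have hgg : G0 / G1 = Real.exp (Real.log (G0 / G1)) := (Real.exp_log hg).symm
  constructor
  · rw [hgg, hl, hlow, ← Real.exp_add, ← Real.exp_add]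
    apply Real.exp_le_exp.2
    rw [hlg]
    linarith [h.2]
  · rw [hgg, hl, hlow, ← Real.exp_add, ← Real.exp_add]
    apply Real.exp_le_exp.2
    rw [hlg]
    linarith [h.1]

theorem T_micro (hcon : S_contact) (hcmp : S_compare) (hG : S_G) : S_micro := by
  intro M d n H hn hc O hO φ₀ hφ₀ φ hφ hs
  set G0 := GG n O φ₀ with hG0
  set G1 := GG n O φ with hG1
  set η := ip (ee φ₀) (aa n O φ) with hη
  have hG0p : 0 < G0 := GG_pos O φ₀
  have hG1p : 0 < G1 := GG_pos O φ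
  set c0 := G1 / (G0 + G1 * η) with hc0d
  have hc0 : 0 < c0 := div_pos hG1p hs
  set g := G0 / G1 with hg
  have hgp : 0 < g := div_pos hG0p hG1p
  have hsum : c0 * (g + η) = 1 := by
    rw [hc0d, hg]
    have h1 := hG1p.ne'
    have h2 := hs.ne'
    field_simp
  -- the moving focus
  set F : ℝ → P := fun p => O + p • aa n O φ₀ with hF
  have hF0 : Tendsto F (𝓝[>] 0) (𝓝 O) := by
    have : Continuous F := by rw [hF]; fun_prop
    have h := this.tendsto 0
    simp only [hF, zero_smul, add_zero] at h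
    exact h.mono_left nhdsWithin_le_nhds
  have hFM : ∀ᶠ p in 𝓝[>] (0 : ℝ), F p ∈ M := hF0.eventually (H.opn.mem_nhds hO)
  have hcc : ContinuousOn (fun p : P × P => n p.1 p.2) (M ×ˢ {u : P | u ≠ 0}) := hc
  have hA : Tendsto (fun p => aa n (F p) φ) (𝓝[>] 0) (𝓝 (aa n O φ)) := by
    have hop : IsOpen (M ×ˢ {u : P | u ≠ 0}) := H.opn.prod isOpen_ne
    have h1 : Tendsto (fun p => n (F p) (ww φ)) (𝓝[>] 0) (𝓝 (n O (ww φ))) := by
      have h2 := (hcc.continuousAt (hop.mem_nhds (show (O, ww φ) ∈ _ from ⟨hO, ww_ne φ⟩)))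
      have h3 : Tendsto (fun p => ((F p, ww φ) : P × P)) (𝓝[>] 0) (𝓝 (O, ww φ)) :=
        hF0.prodMk_nhds tendsto_const_nhds
      exact h2.tendsto.comp h3
    rw [aa_eq hn hO]
    refine h1.neg.congr' ?_
    filter_upwards [hFM] with p hp
    rw [aa_eq hn hp]
  have hκ : Tendsto (fun p => ip (ee φ₀) (aa n (F p) φ)) (𝓝[>] 0) (𝓝 η) := by
    have hcip : Continuous (fun v : P => ip (ee φ₀) v) := by
      unfold ip; fun_prop
    exact (hcip.tendsto _).comp hA
  have hK : ∀ᶠ p in 𝓝[>] (0 : ℝ), ‖aa n (F p) φ‖ < ‖aa n O φ‖ + 1 :=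
    hA.norm.eventually (Iio_mem_nhds (by linarith))
  have hnear : ∀ δ > 0, ∀ᶠ p in 𝓝[>] (0 : ℝ), ∀ c : ℝ, 0 ≤ c → c ≤ 2 * c0 →
      dist (F p - (p * c) • aa n (F p) φ) O < δ := by
    intro δ hδ
    set K := ‖aa n O φ‖ + 1 with hKd
    have hKp : 0 < K := by positivity
    have h1 : ∀ᶠ p in 𝓝[>] (0 : ℝ), dist (F p) O < δ / 2 :=
      hF0.eventually (Metric.ball_mem_nhds O (by linarith))
    have h2 : ∀ᶠ p in 𝓝[>] (0 : ℝ), p < δ / (2 * (2 * c0 * K)) :=
      nhdsWithin_le_nhds (Iio_mem_nhds (by positivity))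
    filter_upwards [h1, h2, hK, self_mem_nhdsWithin] with p hp1 hp2 hp3 hp4 c hc1 hc2
    have hp0 : 0 < p := hp4
    have h3 : ‖(p * c) • aa n (F p) φ‖ ≤ p * (2 * c0) * K := by
      rw [norm_smul, Real.norm_eq_abs, abs_of_nonneg (by positivity)]
      have : p * c ≤ p * (2 * c0) := mul_le_mul_of_nonneg_left hc2 hp0.le
      exact mul_le_mul this hp3.le (norm_nonneg _) (by positivity)
    have h4 : p * (2 * c0) * K < δ / 2 := by
      rw [lt_div_iff₀ (by positivity)] at hp2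
      linarith
    calc dist (F p - (p * c) • aa n (F p) φ) O = ‖(F p - O) - (p * c) • aa n (F p) φ‖ := by
          rw [dist_eq_norm]; congr 1; abel
      _ ≤ ‖F p - O‖ + ‖(p * c) • aa n (F p) φ‖ := norm_sub_le _ _
      _ < δ := by rw [← dist_eq_norm]; linarith
  have hsel : ∀ ε > 0, ∀ᶠ p in 𝓝[>] (0 : ℝ), ∃ c, |c - c0| ≤ ε ∧
      (F p - (p * c) • aa n (F p) φ ∈ M ∧ d (F p - (p * c) • aa n (F p) φ) (F p) =
        hL M d O (ww φ₀) (F p - (p * c) • aa n (F p) φ)) := by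
    intro ε hε
    obtain ⟨ε', hε'0, hε'1, hε'2, hε'3⟩ : ∃ ε' : ℝ, 0 < ε' ∧ ε' * c0 ≤ ε ∧ ε' < c0 * g / 2 ∧
        ε' < 1 := by
      refine ⟨min (min (ε / c0) (c0 * g / 4)) (1 / 2), ?_, ?_, ?_, ?_⟩
      · positivity
      · have : min (min (ε / c0) (c0 * g / 4)) (1 / 2) ≤ ε / c0 :=
          (min_le_left _ _).trans (min_le_left _ _)
        calc _ ≤ ε / c0 * c0 := mul_le_mul_of_nonneg_right this hc0.le
          _ = ε := by field_simp
      · have : min (min (ε / c0) (c0 * g / 4)) (1 / 2) ≤ c0 * g / 4 :=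
          (min_le_left _ _).trans (min_le_right _ _)
        have : 0 < c0 * g := mul_pos hc0 hgp
        linarith
      · exact lt_of_le_of_lt (min_le_right _ _) (by norm_num)
    obtain ⟨ε1, hε1, δ1, hδ1, hnum⟩ := numer hc0 hgp hsum hε'0 hε'2 hε'3
    obtain ⟨ρ1, hρ1, hcmp1⟩ := hcmp M d n H hn hc O hO ε1 hε1
    obtain ⟨ρ2, hρ2, hcon2⟩ := hcon M d n H hn hc O hO 1 one_pos
    -- neighbourhood where everything is small
    obtain ⟨δ2, hδ2, hball⟩ : ∃ δ2 > 0, ∀ X F' : P, dist X O < δ2 → dist F' O < δ2 →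
        X ∈ M ∧ F' ∈ M ∧ d X F' < min ρ1 ρ2 ∧ dist X O < min ρ1 ρ2 := by
      have hop : IsOpen (M ×ˢ M) := H.opn.prod H.opn
      have h1 := (H.cont.continuousAt (hop.mem_nhds (show (O, O) ∈ _ from ⟨hO, hO⟩)))
      have h2 : Tendsto (fun p : P × P => d p.1 p.2) (𝓝 (O, O)) (𝓝 0) := by
        have := h1.tendsto
        simp only at this
        rwa [H.self hO] at this
      have h3 := h2.eventually (Iio_mem_nhds (show (0 : ℝ) < min ρ1 ρ2 by positivity))
      have h4 := h3.and (hop.mem_nhds (show (O, O) ∈ _ from ⟨hO, hO⟩))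
      obtain ⟨r, hr, hr2⟩ := Metric.eventually_nhds_iff.1 h4
      refine ⟨min r (min ρ1 ρ2), by positivity, fun X F' hX hF' => ?_⟩
      have h5 := @hr2 (X, F') (by
        rw [Prod.dist_eq, max_lt_iff]
        exact ⟨lt_of_lt_of_le hX (min_le_left _ _), lt_of_lt_of_le hF' (min_le_left _ _)⟩)
      exact ⟨h5.2.1, h5.2.2, h5.1, lt_of_lt_of_le hX (min_le_right _ _)⟩
    have hFd : ∀ᶠ p in 𝓝[>] (0 : ℝ), dist (F p) O < δ2 :=
      hF0.eventually (Metric.ball_mem_nhds O hδ2)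
    have hκd : ∀ᶠ p in 𝓝[>] (0 : ℝ), |ip (ee φ₀) (aa n (F p) φ) - η| < δ1 := by
      have := hκ.eventually (Metric.ball_mem_nhds η hδ1)
      filter_upwards [this] with p hp
      rwa [Real.dist_eq] at hp
    filter_upwards [hnear δ2 hδ2, hFd, hκd, self_mem_nhdsWithin] with p hp1 hp2 hp3 hp4
    have hp0 : 0 < p := hp4
    obtain ⟨hn1, hn2, hn3⟩ := hnum _ hp3
    set κ := ip (ee φ₀) (aa n (F p) φ) with hκd'
    have hFpM : F p ∈ M := (hball _ _ hp2 hp2).1
    have hht : ∀ c : ℝ, ip (ee φ₀) (F p - (p * c) • aa n (F p) φ - O) = p * (1 - c * κ) := by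
      intro c
      simp only [hF]
      rw [ip_sub_right, ip_sub_right, ip_add_right, ip_smul_right, ip_smul_right, ip_ee_aa,
        ← hκd']
      ring
    -- the basic analysis for one value of c
    have hbasic : ∀ c : ℝ, 0 < c → c ≤ 2 * c0 → ∃ Y : ℝ → P,
        Contact M d n (F p - (p * c) • aa n (F p) φ)
          (d (F p - (p * c) • aa n (F p) φ) (F p)) Y ∧
        ip (ee (φ₀ + Real.pi)) (Y (φ₀ + Real.pi) - (F p - (p * c) • aa n (F p) φ)) ≤
          (p * c) * (g * Real.exp ε1) ∧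
        (p * c) * (g * Real.exp (-ε1)) ≤
          ip (ee (φ₀ + Real.pi)) (Y (φ₀ + Real.pi) - (F p - (p * c) • aa n (F p) φ)) := by
      intro c hc1 hc2
      obtain ⟨hXM, -, hdr, hXd⟩ := hball _ _ (hp1 c hc1.le hc2) hp2
      have hlam : 0 < p * c := mul_pos hp0 hc1
      have hne : F p - (p * c) • aa n (F p) φ ≠ F p := by
        intro h
        have h1 := congrArg (ip (ee φ)) h
        rw [ip_sub_right, ip_smul_right, ip_ee_aa] at h1
        linarith
      have hr0 : 0 < d (F p - (p * c) • aa n (F p) φ) (F p) := H.pos hXM hFpM hne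
      obtain ⟨Y, hY, -⟩ := hcon2 _ hXM (lt_of_lt_of_le hXd (min_le_right _ _)) _ hr0
        (lt_of_lt_of_le hdr (min_le_right _ _))
      have hYφ := contact_eq H hn hFpM hlam hXM hY
      refine ⟨Y, hY, ?_⟩
      have hpi := Real.pi_lt_d2
      have hpi0 := Real.pi_pos
      have hcm := hcmp1 _ hXM (lt_of_lt_of_le hXd (min_le_left _ _)) _ hr0
        (lt_of_lt_of_le hdr (min_le_left _ _)) Y hY (φ₀ + Real.pi)
        ⟨by linarith [hφ₀.1], by linarith [hφ₀.2]⟩ φ ⟨by linarith [hφ.1], by linarith [hφ.2]⟩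
      rw [GG_ratio hc hO, (hG M d n H hn hc O hO).1 φ₀] at hcm
      have hlamv : ip (ee φ) (Y φ - (F p - (p * c) • aa n (F p) φ)) = p * c := by
        rw [hYφ, sub_sub_cancel, ip_smul_right, ip_ee_aa, mul_one]
      rw [hlamv] at hcm
      exact log_bound (hY.pos _) hlam hG0p hG1p hcm
    have hc1p : 0 < (1 - ε') * c0 := mul_pos (by linarith) hc0
    have hc2p : 0 < (1 + ε') * c0 := mul_pos (by linarith) hc0
    have hc1l : (1 - ε') * c0 ≤ 2 * c0 := mul_le_mul_of_nonneg_right (by linarith) hc0.le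
    have hc2l : (1 + ε') * c0 ≤ 2 * c0 := mul_le_mul_of_nonneg_right (by linarith) hc0.le
    have hlow : d (F p - (p * ((1 - ε') * c0)) • aa n (F p) φ) (F p) ≤
        hL M d O (ww φ₀) (F p - (p * ((1 - ε') * c0)) • aa n (F p) φ) := by
      obtain ⟨Y, hY, hY1, -⟩ := hbasic _ hc1p hc1l
      refine low_lt hO hY (lt_of_le_of_lt hY1 ?_)
      rw [hht]
      have := mul_lt_mul_of_pos_left hn1 hp0
      linarith
    have hhigh : hL M d O (ww φ₀) (F p - (p * ((1 + ε') * c0)) • aa n (F p) φ) ≤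
        d (F p - (p * ((1 + ε') * c0)) • aa n (F p) φ) (F p) := by
      obtain ⟨Y, hY, -, hY1⟩ := hbasic _ hc2p hc2l
      obtain ⟨hXM, -⟩ := hball _ _ (hp1 _ hc2p.le hc2l) hp2
      refine low_ge H hXM hY (le_trans ?_ hY1) ?_
      · rw [hht]
        have := mul_lt_mul_of_pos_left hn2 hp0
        linarith
      · rw [hht]
        have := mul_pos hp0 hn3
        linarith
    -- intermediate value theorem
    have hle12 : (1 - ε') * c0 ≤ (1 + ε') * c0 :=
      mul_le_mul_of_nonneg_right (by linarith) hc0.le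
    have hcontX : Continuous (fun c : ℝ => F p - (p * c) • aa n (F p) φ) := by fun_prop
    have hmaps : MapsTo (fun c : ℝ => F p - (p * c) • aa n (F p) φ)
        (Icc ((1 - ε') * c0) ((1 + ε') * c0)) M := fun c hcc' =>
      (hball _ _ (hp1 c (hc1p.le.trans hcc'.1) (hcc'.2.trans hc2l)) hp2).1
    have hcf : ContinuousOn (fun c : ℝ => d (F p - (p * c) • aa n (F p) φ) (F p) -
        hL M d O (ww φ₀) (F p - (p * c) • aa n (F p) φ))
        (Icc ((1 - ε') * c0) ((1 + ε') * c0)) :=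
      ((H.cont_left hFpM).comp hcontX.continuousOn hmaps).sub
        ((hL_cont H hO).comp hcontX.continuousOn hmaps)
    have hiv := intermediate_value_Icc hle12 hcf
    obtain ⟨c, hcI, hc0'⟩ := hiv (show (0 : ℝ) ∈ Icc _ _ from ⟨by simpa using hlow,
      by simpa using hhigh⟩)
    refine ⟨c, ?_, hmaps hcI, by simpa using sub_eq_zero.1 hc0'⟩
    rw [abs_le]
    constructor
    · have := hcI.1
      linarith
    · have := hcI.2
      linarith
  obtain ⟨c, hc1, hc2⟩ := select hsel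
  refine ⟨fun p => F p - (p * c p) • aa n (F p) φ, hc1, ?_⟩
  have hfin : Tendsto (fun p => aa n O φ₀ - c p • aa n (F p) φ) (𝓝[>] 0)
      (𝓝 (aa n O φ₀ - c0 • aa n O φ)) := tendsto_const_nhds.sub (hc2.smul hA)
  refine hfin.congr' ?_
  filter_upwards [self_mem_nhdsWithin] with p hp
  have hp0 : p ≠ 0 := ne_of_gt hp
  simp only [hF]
  have : O + p • aa n O φ₀ - (p * c p) • aa n (O + p • aa n O φ₀) φ - O =
      p • (aa n O φ₀ - c p • aa n (O + p • aa n O φ₀) φ) := by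
    rw [smul_sub, mul_smul]; abel
  rw [this, smul_smul, inv_mul_cancel₀ hp0, one_smul]

end Pool.Agent.W741.PM
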